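import Mathlib

/-!
# Selective high divergence passes to the Pixley-Roy hyperspace

If `X` is selectively highly divergent then so is its Pixley-Roy hyperspace. Given open sets
`[F_n, V_n]` choose `x_n ∈ V_n` such that `(x_n)` has no convergent subsequence and put
`H_n = F_n ∪ {x_n}`. If a subsequence of `(H_n)` converged to `H`, then the corresponding subsequence
of `(x_n)` would eventually be in every open set around the finite set `H`; but then some further
subsequence would converge to a point of `H`.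
-/

set_option autoImplicit false

open Set Filter Topology

universe u

namespace Pool.Agent.Results.MP_3a5480_gt.Ascends

/-- `X` is selectively highly divergent: for every sequence of nonempty open sets one can choose
points of these sets such that no subsequence of the sequence of the points converges. -/
def SHD (X : Type u) [TopologicalSpace X] : Prop :=
  ∀ U : ℕ → Set X, (∀ n, IsOpen (U n)) → (∀ n, (U n).Nonempty) →
    ∃ x : ℕ → X, (∀ n, x n ∈ U n) ∧
      ∀ φ : ℕ → ℕ, StrictMono φ → ¬ ∃ a : X, Tendsto (x ∘ φ) atTop (𝓝 a)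

/-- The points of the Pixley-Roy hyperspace: the nonempty finite subsets of `X`. -/
def PixleyRoy (X : Type u) : Type u := {A : Set X // A.Finite ∧ A.Nonempty}

/-- The topology of the Pixley-Roy hyperspace: the sets
`[F, V] = {H | F ⊆ H ⊆ V}`, `V` open, `F ⊆ V`, form a local base at `F`. -/
instance (X : Type u) [TopologicalSpace X] : TopologicalSpace (PixleyRoy X) where
  IsOpen 𝒰 := ∀ F ∈ 𝒰, ∃ V : Set X, IsOpen V ∧ F.1 ⊆ V ∧
    {H : PixleyRoy X | F.1 ⊆ H.1 ∧ H.1 ⊆ V} ⊆ 𝒰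
  isOpen_univ := fun F _ => ⟨univ, isOpen_univ, subset_univ _, subset_univ _⟩
  isOpen_inter := by
    rintro 𝒰 𝒱 h𝒰 h𝒱 F ⟨hF1, hF2⟩
    obtain ⟨V, hV, hFV, hVU⟩ := h𝒰 F hF1
    obtain ⟨W, hW, hFW, hWV⟩ := h𝒱 F hF2
    refine ⟨V ∩ W, hV.inter hW, subset_inter hFV hFW, ?_⟩
    rintro H ⟨h1, h2⟩
    exact ⟨hVU ⟨h1, h2.trans inter_subset_left⟩, hWV ⟨h1, h2.trans inter_subset_right⟩⟩
  isOpen_sUnion := by
    rintro S hS F ⟨𝒰, h𝒰, hF⟩
    obtain ⟨V, hV, hFV, hVU⟩ := hS 𝒰 h𝒰 F hF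
    exact ⟨V, hV, hFV, hVU.trans (subset_sUnion_of_mem h𝒰)⟩

/-- The basic sets `[F, V]` are open. -/
theorem isOpen_basic {X : Type u} [TopologicalSpace X] (F : Set X) {V : Set X} (hV : IsOpen V) :
    IsOpen {H : PixleyRoy X | F ⊆ H.1 ∧ H.1 ⊆ V} := by
  rintro G ⟨hG1, hG2⟩
  exact ⟨V, hV, hG2, fun H hH => ⟨hG1.trans hH.1, hH.2⟩⟩

/-- If no subsequence of `y` converges to a point of the finite set `S`, then some subsequence of
`y` misses a neighbourhood of `S`. -/
theorem exists_avoid {X : Type u} [TopologicalSpace X] (y : ℕ → X) {S : Set X} (hS : S.Finite)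
    (hy : ∀ ψ : ℕ → ℕ, StrictMono ψ → ∀ a ∈ S, ¬ Tendsto (y ∘ ψ) atTop (𝓝 a)) :
    ∃ V : Set X, IsOpen V ∧ S ⊆ V ∧ ∃ ψ : ℕ → ℕ, StrictMono ψ ∧ ∀ k, y (ψ k) ∉ V := by
  induction S, hS using Set.Finite.induction_on with
  | empty => exact ⟨∅, isOpen_empty, subset_rfl, id, strictMono_id, fun k h => h⟩
  | @insert h S' _ _ ih =>
    obtain ⟨V, hV, hSV, ψ, hψ, hψV⟩ := ih (fun ψ hψ a ha => hy ψ hψ a (mem_insert_of_mem _ ha))
    have h1 := hy ψ hψ h (mem_insert _ _)
    rw [tendsto_nhds] at h1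
    push Not at h1
    obtain ⟨W, hW, hhW, hfr⟩ := h1
    have h2 : ∃ᶠ k in atTop, y (ψ k) ∉ W := fun hcon => hfr (by
      filter_upwards [hcon] with k hk
      simpa using hk)
    obtain ⟨ρ, hρ, hρW⟩ := extraction_of_frequently_atTop h2
    refine ⟨V ∪ W, hV.union hW, ?_, ψ ∘ ρ, hψ.comp hρ, ?_⟩
    · rintro z (rfl | hz)
      · exact Or.inr hhW
      · exact Or.inl (hSV hz)
    · rintro k (hk | hk)
      · exact hψV _ hk
      · exact hρW _ hk

/-- If `X` is selectively highly divergent (no separation axiom is needed) then its Pixley-Roy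
hyperspace is selectively highly divergent. -/
theorem result (X : Type u) [TopologicalSpace X] (hX : SHD X) : SHD (PixleyRoy X) := by
  intro U hU hne
  choose F hF using hne
  choose V hV hFV hVU using fun n => hU n (F n) (hF n)
  obtain ⟨x, hx, hxdiv⟩ := hX V hV (fun n => (F n).2.2.mono (hFV n))
  let H : ℕ → PixleyRoy X := fun n =>
    ⟨insert (x n) (F n).1, (F n).2.1.insert _, insert_nonempty _ _⟩
  refine ⟨H, fun n => hVU n ⟨subset_insert _ _, insert_subset (hx n) (hFV n)⟩, ?_⟩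
  rintro φ hφ ⟨a, ha⟩
  obtain ⟨W, hW, haW, ψ, hψ, hψW⟩ := exists_avoid (x ∘ φ) a.2.1
    (fun ψ hψ b _ hb => hxdiv (φ ∘ ψ) (hφ.comp hψ) ⟨b, hb⟩)
  have h3 : ∀ᶠ n in atTop, (H ∘ φ) n ∈ {G : PixleyRoy X | a.1 ⊆ G.1 ∧ G.1 ⊆ W} :=
    ha ((isOpen_basic a.1 hW).mem_nhds ⟨subset_rfl, haW⟩)
  obtain ⟨N, hN⟩ := eventually_atTop.1 h3
  exact hψW N ((hN (ψ N) (hψ.id_le N)).2 (mem_insert _ _))

end Pool.Agent.Results.MP_3a5480_gt.Ascends
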